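import Pool.Agent.ANI.Stmts

/-! STA: the initial state -/

set_option autoImplicit false

open MeasureTheory ProbabilityTheory Function Filter

open scoped ENNReal BigOperators Topology NNReal ComplexOrder Matrix

noncomputable section

namespace Pool.Agent.ANI.H15

open Pool.Agent.Anderson hiding box mem_box card_box
open Pool.Agent.Loc Pool.Agent.Mob Pool.Agent.Helper54.Bal
  Pool.Agent.Helper96.EXP Pool.Agent.BED
open Pool.Agent.LE Pool.Agent.LE.MN Pool.Agent.LE.CL Pool.Agent.LE.IR Pool.Agent.LE.QD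
  Pool.Agent.LE.QF

theorem log_le (δ w : ℝ) (hδ : 0 < δ) (hw : 0 < w) (hw1 : w ≤ 1) :
    1 + Real.log (1 / w) ≤ (1 + 1 / δ) * w ^ (-δ) := by
  have h1 : Real.log (1 / w) ≤ (1 / w) ^ δ / δ := Real.log_le_rpow_div (by positivity) hδ
  have h2 : (1 / w) ^ δ = w ^ (-δ) := by
    rw [one_div, Real.inv_rpow hw.le, Real.rpow_neg hw.le]
  have h3 : 1 ≤ w ^ (-δ) := Real.one_le_rpow_of_pos_of_le_one_of_nonpos hw hw1 (by linarith)
  rw [h2] at h1
  have : (1 + 1 / δ) * w ^ (-δ) = w ^ (-δ) + w ^ (-δ) / δ := by ring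
  rw [this]
  linarith

theorem absorb (K T e g : ℝ) (hT : 0 < T) (hg : 0 < g) (hK : 0 < K) (h : T ≤ K ^ (-(1 / g))) :
    K * T ^ e ≤ T ^ (e - g) := by
  have h1 : K ≤ T ^ (-g) := by
    have h2 : (K ^ (-(1 / g))) ^ (-g) = K := by
      rw [← Real.rpow_mul hK.le]
      have : -(1 / g) * -g = 1 := by field_simp
      rw [this, Real.rpow_one]
    calc K = (K ^ (-(1 / g))) ^ (-g) := h2.symm
      _ ≤ T ^ (-g) := Real.rpow_le_rpow_of_nonpos hT h (by linarith)
  calc K * T ^ e ≤ T ^ (-g) * T ^ e := by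
        have := Real.rpow_nonneg hT.le e
        gcongr
    _ = T ^ (e - g) := by
        rw [← Real.rpow_add hT]
        congr 1
        ring

theorem num (A c₁ e g : ℝ) (n : ℕ) (hA : 0 < A) (hc₁ : 0 < c₁) (he : 0 ≤ e) (hg : 0 < g)
    (hn : 1 ≤ n) : ∃ t₀ : ℝ, 0 < t₀ ∧ ∀ T w : ℝ, 0 < T → T ≤ t₀ → c₁ * T ≤ w → w ≤ 1 →
      A * w ^ (-e) * (1 + Real.log (1 / w)) ^ n ≤ T ^ (-(e + g)) := by
  have hn0 : (0 : ℝ) < n := by exact_mod_cast hn
  set δ : ℝ := g / (2 * n) with hδ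
  have hδ0 : 0 < δ := by positivity
  set K : ℝ := A * (1 + 1 / δ) ^ n * c₁ ^ (-(e + g / 2)) with hK
  have hK0 : 0 < K := by positivity
  refine ⟨K ^ (-(1 / (g / 2))), by positivity, fun T w hT hTt hw hw1 => ?_⟩
  have hw0 : 0 < w := lt_of_lt_of_le (by positivity) hw
  have hl0 : 0 ≤ Real.log (1 / w) := Real.log_nonneg (by rw [le_div_iff₀ hw0]; linarith)
  have h1 := log_le δ w hδ0 hw0 hw1
  have h2 : (1 + Real.log (1 / w)) ^ n ≤ (1 + 1 / δ) ^ n * w ^ (-(g / 2)) := by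
    calc (1 + Real.log (1 / w)) ^ n ≤ ((1 + 1 / δ) * w ^ (-δ)) ^ n :=
          pow_le_pow_left₀ (by linarith) h1 n
      _ = (1 + 1 / δ) ^ n * w ^ (-(g / 2)) := by
          rw [mul_pow, ← Real.rpow_natCast (w ^ (-δ)) n, ← Real.rpow_mul hw0.le]
          congr 2
          rw [hδ]
          field_simp
  have h3 : w ^ (-(e + g / 2)) ≤ c₁ ^ (-(e + g / 2)) * T ^ (-(e + g / 2)) := by
    rw [← Real.mul_rpow hc₁.le hT.le]
    exact Real.rpow_le_rpow_of_nonpos (by positivity) hw (by linarith)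
  have hwe : 0 ≤ w ^ (-e) := Real.rpow_nonneg hw0.le _
  calc A * w ^ (-e) * (1 + Real.log (1 / w)) ^ n
      ≤ A * w ^ (-e) * ((1 + 1 / δ) ^ n * w ^ (-(g / 2))) := by gcongr
    _ = A * (1 + 1 / δ) ^ n * w ^ (-(e + g / 2)) := by
        have : -(e + g / 2) = -e + -(g / 2) := by ring
        rw [this, Real.rpow_add hw0]
        ring
    _ ≤ A * (1 + 1 / δ) ^ n * (c₁ ^ (-(e + g / 2)) * T ^ (-(e + g / 2))) := by gcongr
    _ = K * T ^ (-(e + g / 2)) := by rw [hK]; ring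
    _ ≤ T ^ (-(e + g / 2) - g / 2) := absorb K T _ (g / 2) hT (by positivity) hK0 hTt
    _ = T ^ (-(e + g)) := by
        congr 1
        ring

variable {d M : ℕ} [NeZero M]

theorem rs_inv (ral : RalStmt) (z : ℂ) (hz : 0 < z.im) (x y x' y' : Tor d M)
    (h : x - y = x' - y') :
    rs (0 : Tor d M → ℝ) z x y = rs (0 : Tor d M → ℝ) z x' y' := by
  obtain ⟨-, -, -, -, -, -, -, -, -, -, r11, -⟩ := ral d M (0 : Tor d M → ℝ) z hz
  rw [r11, r11, h]

theorem ec0 (x : Tor d M) : ec (0 : Tor d M) x = 1 := by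
  simp [ec]

theorem qf_smul (t : ℝ) (A : Matrix (Tor d M) (Tor d M) ℝ) (f : Tor d M → ℝ) :
    qf (t • A) f = t * qf A f := by
  unfold QF.qf
  rw [Finset.mul_sum]
  refine Finset.sum_congr rfl fun x _ => ?_
  rw [Matrix.smul_mulVec, Pi.smul_apply, smul_eq_mul]
  ring

theorem re_sq (z : ℂ) : z.re ^ 2 = (‖z‖ ^ 2 + (z ^ 2).re) / 2 := by
  rw [← Complex.normSq_eq_norm_sq, Complex.normSq_apply, pow_two z, Complex.mul_re]
  ring

theorem sum_sq (ral : RalStmt) (kft : KftStmt) (z : ℂ) (hz : 0 < z.im) (x : Tor d M) :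
    ∑ y, rs (0 : Tor d M → ℝ) z x y ^ 2 = bh z (0 : Tor d M) := by
  obtain ⟨-, k2, -⟩ := kft d M z hz
  rw [← k2 0, ← Equiv.sum_comp (Equiv.addRight x)]
  refine Finset.sum_congr rfl fun y _ => ?_
  have h : x - (y + x) = 0 - y := by abel
  rw [ec0, mul_one, Equiv.coe_addRight, rs_inv ral z hz x (y + x) 0 y h]

theorem sta (mbr : MbrStmt) (ral : RalStmt) (frb : FrbStmt) (kft : KftStmt) (khb : KhbStmt)
    (lam : LamStmt) (prd : PrdStmt) (sym : SymStmt) (syf : SyfStmt) (wht : WhtStmt)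
    (whm : WhmStmt) : StaStmt := by
  intro d a ε hd ha hε hε1
  obtain ⟨c₁, C₁, hc₁, hc₁1, hC₁, mbr⟩ := mbr d a hd ha
  obtain ⟨CF, hCF, frb⟩ := frb d hd
  obtain ⟨CP, hCP, prd⟩ := prd d hd
  obtain ⟨CL, hCL, lam⟩ := lam d hd
  obtain ⟨CK, hCK, khb⟩ := khb d hd
  obtain ⟨cS, CS, hcS, hcS2, hCS, sym⟩ := sym d (a / 2) c₁ hd (by positivity) hc₁
  have hb0 : 0 < min c₁ (1 / C₁) := lt_min hc₁ (by positivity)
  obtain ⟨cW, CW, hcW, hcW2, hCW, wht⟩ := wht d (min c₁ (1 / C₁)) (ε / 13) cS 1 CK hd hb0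
    (by positivity) (by linarith) hcS le_rfl hCK
  obtain ⟨t₁, ht₁, num1⟩ := num CL c₁ (2 / 3) ε 6 (by linarith) hc₁ (by norm_num) hε (by norm_num)
  obtain ⟨t₂, ht₂, num2⟩ := num CK c₁ (1 / 2) ε 1 (by linarith) hc₁ (by norm_num) hε le_rfl
  -- the constants
  set Q : ℝ := CF + CP + CW + C₁ + CL + CK + 2 * CS with hQ
  have hcc : c₁ ^ 2 ≤ 1 := pow_le_one₀ hc₁.le hc₁1
  have hQ0 : 0 < Q := by rw [hQ]; linarith
  have hQC : Q ≤ Q / c₁ ^ 2 := by
    rw [le_div_iff₀ (by positivity)]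
    nlinarith
  obtain ⟨c, hc0, hcs⟩ : ∃ c : ℝ, 0 < c ∧ c ≤ 1 / 2 ∧ c ≤ c₁ ∧ c ≤ a / (2 * CF) ∧
      c ≤ cS / (1 + C₁) ∧ c ≤ 1 / (2 * (1 + C₁)) ∧ c ≤ cW ∧ c ≤ t₁ ∧ c ≤ t₂ ∧
      c ≤ cS * c₁ / (2 * (1 + C₁) ^ 2) := by
    have h1 : 0 < a / (2 * CF) := by positivity
    have h2 : 0 < cS / (1 + C₁) := by positivity
    have h3 : 0 < 1 / (2 * (1 + C₁)) := by positivity
    have h4 : 0 < cS * c₁ / (2 * (1 + C₁) ^ 2) := by positivity
    have h5 : (0 : ℝ) < 1 / 2 := by norm_num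
    refine ⟨min (min (min (1 / 2) c₁) (min (a / (2 * CF)) (cS / (1 + C₁))))
      (min (min (1 / (2 * (1 + C₁))) cW) (min (min t₁ t₂) (cS * c₁ / (2 * (1 + C₁) ^ 2)))),
      ?_, ?_, ?_, ?_, ?_, ?_, ?_, ?_, ?_, ?_⟩
    · exact lt_min (lt_min (lt_min h5 hc₁) (lt_min h1 h2))
        (lt_min (lt_min h3 hcW) (lt_min (lt_min ht₁ ht₂) h4))
    · exact (min_le_left _ _).trans ((min_le_left _ _).trans (min_le_left _ _))
    · exact (min_le_left _ _).trans ((min_le_left _ _).trans (min_le_right _ _))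
    · exact (min_le_left _ _).trans ((min_le_right _ _).trans (min_le_left _ _))
    · exact (min_le_left _ _).trans ((min_le_right _ _).trans (min_le_right _ _))
    · exact (min_le_right _ _).trans ((min_le_left _ _).trans (min_le_left _ _))
    · exact (min_le_right _ _).trans ((min_le_left _ _).trans (min_le_right _ _))
    · exact (min_le_right _ _).trans ((min_le_right _ _).trans ((min_le_left _ _).trans
        (min_le_left _ _)))
    · exact (min_le_right _ _).trans ((min_le_right _ _).trans ((min_le_left _ _).trans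
        (min_le_right _ _)))
    · exact (min_le_right _ _).trans ((min_le_right _ _).trans (min_le_right _ _))
  obtain ⟨k1, k2, k3, k4, k5, k6, k7, k8, k9⟩ := hcs
  refine ⟨c, Q / c₁ ^ 2, hc0, k1, by linarith, ?_⟩
  intro M _ E η T hE hη hηT hTc hM
  have hT : 0 < T := hη.trans_le hηT
  have hQM : Q / T ^ 2 ≤ M := by
    refine le_trans ?_ hM
    gcongr
  obtain ⟨m, hfix, hm1, hm2, -⟩ := mbr M E η T hE hη hηT (hTc.trans k2) (le_trans (by
    gcongr
    linarith) hQM)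
  set ζ : ℂ := ⟨E, η⟩ + (T : ℂ) * m with hζ
  have hm0 : 0 < m.im := hc₁.trans_le hm1
  have him : ζ.im = η + T * m.im := by
    rw [hζ]
    simp
  have hre : ζ.re = E + T * m.re := by
    rw [hζ]
    simp
  set w : ℝ := ζ.im with hw
  have hw0 : 0 < w := by rw [him]; positivity
  have hwl : c₁ * T ≤ w := by
    rw [him]
    nlinarith
  have hwu : w ≤ (1 + C₁) * T := by
    rw [him]
    nlinarith
  have hw2 : w ≤ 1 / 2 := by
    refine hwu.trans ?_
    calc (1 + C₁) * T ≤ (1 + C₁) * (1 / (2 * (1 + C₁))) := by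
          have := hTc.trans k5
          gcongr
      _ = 1 / 2 := by field_simp
  have hwS : w ≤ cS := by
    refine hwu.trans ?_
    calc (1 + C₁) * T ≤ (1 + C₁) * (cS / (1 + C₁)) := by
          have := hTc.trans k4
          gcongr
      _ = cS := by field_simp
  -- the size of the torus
  have hMw : ∀ X : ℝ, X ≤ Q → X / w ^ 2 ≤ M := by
    intro X hX
    refine le_trans ?_ hM
    calc X / w ^ 2 ≤ Q / w ^ 2 := by gcongr
      _ ≤ Q / (c₁ * T) ^ 2 := by gcongr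
      _ = Q / c₁ ^ 2 / T ^ 2 := by
          field_simp
  have hdiag : ∀ x : Tor d M, rs (0 : Tor d M → ℝ) ζ x x = m := by
    intro x
    rw [rs_inv ral ζ hw0 x x 0 0 (by simp)]
    exact hfix
  have hG : ∀ x y : Tor d M, ‖rs (0 : Tor d M → ℝ) ζ x y‖ ≤ CF := fun x y =>
    (frb M ζ hw0 (by linarith) (hMw CF (by linarith)) x).1 y
  have hmn : ‖m‖ ≤ CF := by
    rw [← hdiag 0]
    exact hG 0 0
  have hre2 : |ζ.re| ≤ 2 * d - a / 2 := by
    rw [hre]
    have h1 : |E + T * m.re| ≤ |E| + |T * m.re| := abs_add_le _ _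
    have h2 : |T * m.re| ≤ a / 2 := by
      rw [abs_mul, abs_of_pos hT]
      have h3 := (Complex.abs_re_le_norm m).trans hmn
      calc T * |m.re| ≤ (a / (2 * CF)) * CF := by
            have := hTc.trans k3
            gcongr
        _ = a / 2 := by field_simp
    linarith
  have hk : ∀ x : Tor d M, ∑ y, ‖rs (0 : Tor d M → ℝ) ζ x y‖ ^ 2 = m.im / (η + T * m.im) := by
    intro x
    obtain ⟨-, -, -, -, r5, -⟩ := ral d M (0 : Tor d M → ℝ) ζ hw0
    rw [r5, hdiag, ← him]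
  obtain ⟨f1, -, -, -, -, f6⟩ := kft d M ζ hw0
  have hkf : kf ζ (0 : Tor d M) = m.im / w := by
    rw [f6, hfix]
  have hTk : T * kf ζ (0 : Tor d M) ≤ 1 := by
    rw [hkf, ← mul_div_assoc, div_le_one hw0, him]
    linarith
  have hTk2 : c₁ / 2 ≤ T * kf ζ (0 : Tor d M) := by
    rw [hkf, ← mul_div_assoc, le_div_iff₀ hw0, him]
    have h1 : c₁ * η ≤ T * m.im := by
      calc c₁ * η ≤ m.im * T := by gcongr
        _ = T * m.im := mul_comm _ _
    have h2 : c₁ * (T * m.im) ≤ 1 * (T * m.im) := by gcongr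
    linarith
  have hsym := sym M ζ hre2 hw0 hwS (hMw CS (by linarith)) (by
    rw [hkf, mul_div_cancel₀ _ hw0.ne']
    exact hm1)
  have hkk : ∀ (p : Tor d M) (i : Fin d), |kf ζ p| ≤ CK * (1 + Real.log (1 / ζ.im)) / ζ.im *
      Real.sqrt (ζ.im / (ζ.im + |Real.sin (Real.pi * ((p i).valMinAbs : ℝ) / M)|)) := by
    intro p i
    rw [f1]
    exact (Complex.abs_re_le_norm _).trans
      (khb M ζ p i hw0 hw2 (hMw CK (by linarith))).1
  refine ⟨m, ζ, ?_, hdiag, ⟨k2.trans hm1, ?_⟩, ?_, ?_, hk, ?_, ?_, ?_, ?_⟩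
  · rfl
  · linarith
  · intro x y
    exact (hG x y).trans (by linarith)
  · intro x y i
    refine (prd M ζ hw0 (by linarith) (hMw CP (by linarith)) x y i).trans ?_
    have : CP ≤ Q / c₁ ^ 2 := by linarith
    gcongr
  · intro x
    exact (lam M ζ hw0 (by linarith) (hMw CL (by linarith)) x).trans
      (num1 T w hT (hTc.trans k7) hwl (by linarith))
  · intro x
    have h1 : ∑ y, (rs (0 : Tor d M → ℝ) ζ x y).re ^ 2 =
        (m.im / (η + T * m.im) + (bh ζ (0 : Tor d M)).re) / 2 := by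
      rw [← hk x, ← sum_sq ral kft ζ hw0 x, Complex.re_sum, ← Finset.sum_add_distrib,
        Finset.sum_div]
      exact Finset.sum_congr rfl fun y _ => re_sq _
    have i0 : Fin d := ⟨0, by linarith⟩
    have h2 := (khb M ζ (0 : Tor d M) i0 hw0 hw2 (hMw CK (by linarith))).2
    have h3 : |Real.cos (Real.pi * (((0 : Tor d M) i0).valMinAbs : ℝ) / M)| = 1 := by
      simp
    rw [h3] at h2
    have h4 : Real.sqrt (w / (w + 1)) ≤ w ^ (1 / 2 : ℝ) := by
      rw [← Real.sqrt_eq_rpow]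
      apply Real.sqrt_le_sqrt
      rw [div_le_iff₀ (by linarith)]
      nlinarith
    have hl0 : 0 ≤ Real.log (1 / w) := Real.log_nonneg (by rw [le_div_iff₀ hw0]; linarith)
    have h5 : ‖bh ζ (0 : Tor d M)‖ ≤ T ^ (-(1 / 2 + ε)) := by
      refine h2.trans (le_trans ?_ (num2 T w hT (hTc.trans k8) hwl (by linarith)))
      calc CK * (1 + Real.log (1 / w)) / w * Real.sqrt (w / (w + 1))
          ≤ CK * (1 + Real.log (1 / w)) / w * w ^ (1 / 2 : ℝ) := by gcongr
        _ = CK * w ^ (-(1 / 2) : ℝ) * (1 + Real.log (1 / w)) ^ 1 := by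
            have h6 : w ^ (-(1 / 2) : ℝ) = w ^ (1 / 2 : ℝ) / w := by
              rw [← Real.rpow_sub_one hw0.ne']
              norm_num
            rw [h6, pow_one]
            ring
    have h7 : T * (bh ζ (0 : Tor d M)).re ≤ T ^ (1 / 2 - ε) := by
      calc T * (bh ζ (0 : Tor d M)).re ≤ T * T ^ (-(1 / 2 + ε)) := by
            have := (Complex.re_le_norm _).trans h5
            gcongr
        _ = T ^ (1 / 2 - ε) := by
            rw [← Real.rpow_one_add' hT.le (by linarith)]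
            congr 1
            ring
    have h8 : T * (m.im / (η + T * m.im)) ≤ 1 := by
      rw [← him, ← hkf]
      exact hTk
    have h9 : 0 ≤ T ^ (1 / 2 - ε) := Real.rpow_nonneg hT.le _
    rw [h1]
    nlinarith
  · intro f
    obtain ⟨⟨h, hh⟩, hu⟩ := syf d M ζ cS CS hw0 hcS (by linarith) hsym f
    refine ⟨⟨h, ?_⟩, fun h => ?_⟩
    · rw [qf_smul]
      set S1 : ℝ := ∑ x, (f x - h x) ^ 2 with hS1
      set S2 : ℝ := ∑ x, ∑ i, (h (x + Pi.single i 1) - h x) ^ 2 with hS2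
      have h1 : 0 ≤ S1 := Finset.sum_nonneg fun _ _ => sq_nonneg _
      have h2 : 0 ≤ S2 := Finset.sum_nonneg fun _ _ => Finset.sum_nonneg fun _ _ => sq_nonneg _
      have h3 : S2 / ((1 + C₁) ^ 2 * T ^ 2) ≤ S2 / w ^ 2 := by
        rw [← mul_pow]
        gcongr
      have h4 : S1 / (1 + C₁) ^ 2 ≤ S1 := by
        apply div_le_self h1
        nlinarith
      calc c * (S1 + S2 / T ^ 2)
          ≤ cS * c₁ / (2 * (1 + C₁) ^ 2) * (S1 + S2 / T ^ 2) := by gcongr
        _ = c₁ / 2 * (cS * (S1 / (1 + C₁) ^ 2 + S2 / ((1 + C₁) ^ 2 * T ^ 2))) := by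
            field_simp
        _ ≤ (T * kf ζ (0 : Tor d M)) * (cS * (S1 + S2 / w ^ 2)) := by
            have h0 : 0 ≤ T * kf ζ (0 : Tor d M) := le_trans (by positivity) hTk2
            gcongr
        _ = T * (cS * kf ζ (0 : Tor d M) * (S1 + S2 / w ^ 2)) := by ring
        _ ≤ _ := by gcongr
    · rw [qf_smul]
      have hu := hu h
      set S1 : ℝ := ∑ x, (f x - h x) ^ 2 with hS1
      set S2 : ℝ := ∑ x, ∑ i, (h (x + Pi.single i 1) - h x) ^ 2 with hS2
      have h1 : 0 ≤ S1 := Finset.sum_nonneg fun _ _ => sq_nonneg _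
      have h2 : 0 ≤ S2 := Finset.sum_nonneg fun _ _ => Finset.sum_nonneg fun _ _ => sq_nonneg _
      have h3 : S2 / w ^ 2 ≤ S2 / (c₁ ^ 2 * T ^ 2) := by
        rw [← mul_pow]
        gcongr
      have h4 : S1 ≤ S1 / c₁ ^ 2 := by
        rw [le_div_iff₀ (by positivity)]
        nlinarith
      calc T * _ ≤ T * (2 * CS * kf ζ (0 : Tor d M) * (S1 + S2 / w ^ 2)) := by gcongr
        _ = (T * kf ζ (0 : Tor d M)) * (2 * CS * (S1 + S2 / w ^ 2)) := by ring
        _ ≤ 1 * (2 * CS * (S1 / c₁ ^ 2 + S2 / (c₁ ^ 2 * T ^ 2))) := by gcongr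
        _ = 2 * CS / c₁ ^ 2 * (S1 + S2 / T ^ 2) := by
            field_simp
        _ ≤ _ := by
            have : 2 * CS ≤ Q := by linarith
            gcongr
  · intro s hs hsT
    have hbm : min c₁ (1 / C₁) ≤ m.im := (min_le_left _ _).trans hm1
    have hbm2 : m.im ≤ 1 / min c₁ (1 / C₁) := by
      rw [le_div_iff₀ hb0]
      calc m.im * min c₁ (1 / C₁) ≤ C₁ * (1 / C₁) := by
            have := min_le_right c₁ (1 / C₁)
            gcongr
        _ = 1 := by field_simp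
    have hwt := wht M E η T s m ζ hζ hη hηT (hTc.trans k6) hs hsT hbm hbm2
      (le_trans (by
        gcongr
        linarith) hQM) hfix (fun p => (hsym p).1) hkk
    obtain ⟨-, w2, w3⟩ := whm d M E η T (s ^ (ε / 13 - 1)) m ζ hζ hη hT
      (Real.rpow_nonneg hs.le _) hm0 hfix
    refine ⟨mlt (n1 ζ T (s ^ (ε / 13 - 1))), fun x y => (w3 x y).1, fun f => (w2 f).1,
      fun x => ?_, fun f => (w2 f).2⟩
    rw [(w3 x x).2]
    refine hwt.trans ?_
    have h1 : (1 / 2 - 13 * (ε / 13) : ℝ) = 1 / 2 - ε := by ring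
    rw [h1]
    have h2 : CW ≤ Q / c₁ ^ 2 := by linarith
    gcongr

end Pool.Agent.ANI.H15
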